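import Pool.Agent.Mon.Final

/-!
# A totally categorical good diagram of a group without infinite abelian subgroups

There is an infinite group `G` and a subset `P` of `G` such that the diagram `D` of the structure
`(G, P)` (in the language `Mon.LG` of groups with a unary predicate) is good and categorical in every
infinite cardinal, but every abelian subgroup of `G` is finite.  So the answer to the question is NO.

The definitions are in `Pool/Agent/Mon/MT0.lean`; they are literally those of the problem.
-/

open FirstOrder Language Cardinal

namespace Pool.Agent.Results.MP_23d001_lc.NoInfiniteAbelian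

universe u

theorem result : ∃ (G : Type) (_ : Group G) (P : Set G), Infinite G ∧
    (letI : Mon.LG.Structure G := Mon.strG G P
     Mon.Good.{u} Mon.LG (Mon.diagram Mon.LG G) ∧
      ∀ κ : Cardinal.{u}, ℵ₀ ≤ κ → Mon.Categorical Mon.LG (Mon.diagram Mon.LG G) κ) ∧
    ∀ A : Subgroup G, (∀ x ∈ A, ∀ y ∈ A, x * y = y * x) → Finite A :=
  Mon.main

end Pool.Agent.Results.MP_23d001_lc.NoInfiniteAbelian
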